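import Pool.Agent.Q283.PQ.Stm
import Pool.Agent.Q182.FG.KUB
import Pool.Agent.TH841.NF.Tm

/-!
# Project PQ (helper283), job ATP (helper182): the classes of the torsion points over a local field
-/

set_option autoImplicit false

namespace Pool.Agent.Q182.PQ

open NumberField IsDedekindDomain WeierstrassCurve
open Pool.Agent.Q283.FT (crv Rt twi df Cov AX)
open Pool.Agent.Q283.FG (Cx tc TX)
open Pool.Agent.Q283.PQ (ATo)
open Pool.Agent.Q7.LK
open Pool.Agent.TH841.SH (IsR)
open Pool.Agent.TH841.SH.D (Pt)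
open Pool.Agent.TH841.NF (Sc tF tF_add ns_iff)

/-! ## Counting torsion elements modulo doubles -/

/-- a finite group with an endomorphism: index of the image -/
theorem index_range {G : Type*} [AddCommGroup G] [Finite G] (f : G →+ G) :
    f.range.index = Nat.card f.ker := by
  have h1 := f.ker.card_mul_index
  have h2 := f.range.card_mul_index
  rw [AddSubgroup.index_ker] at h1
  have h3 : Nat.card f.range * f.range.index = Nat.card f.range * Nat.card f.ker := by
    rw [h2, ← h1, mul_comm]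
  exact Nat.eq_of_mul_eq_mul_left Nat.card_pos h3

/-- torsion elements in different classes modulo doubles -/
theorem count_two {A : Type*} [AddCommGroup A] (T : Finset A) (hT : ∀ x : A, x + x = 0 → x ∈ T)
    {ι : Type*} (B : Finset ι) (P : ι → A) (hP : ∀ b ∈ B, IsOfFinAddOrder (P b))
    (hB : ∀ b ∈ B, ∀ b' ∈ B, ∀ R : A, P b' - P b = R + R → b = b') : B.card ≤ T.card := by
  classical
  set S : Set A := (fun b => P b) '' (B : Set ι) with hS
  have hSf : S.Finite := B.finite_toSet.image _
  set G := AddSubgroup.closure S with hG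
  have hGtor : ∀ x ∈ G, IsOfFinAddOrder x := by
    have h1 : G ≤ AddCommGroup.torsion A := by
      rw [hG, AddSubgroup.closure_le]
      rintro x ⟨b, hb, rfl⟩
      exact hP b hb
    intro x hx
    exact h1 hx
  have hfg : AddGroup.FG G := by
    have : Finite S := hSf
    exact AddGroup.closure_finite_fg S
  have hfin : Finite G := by
    refine AddCommGroup.finite_of_fg_isAddTorsion G fun x => ?_
    have h1 := hGtor x.1 x.2
    rw [isOfFinAddOrder_iff_nsmul_eq_zero] at h1 ⊢
    obtain ⟨n, hn, h2⟩ := h1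
    exact ⟨n, hn, Subtype.ext h2⟩
  let f : G →+ G :=
    { toFun := fun x => x + x
      map_zero' := add_zero 0
      map_add' := fun x y => by abel }
  have hker : Nat.card f.ker ≤ T.card := by
    rw [← Nat.card_eq_finsetCard T]
    refine Nat.card_le_card_of_injective (fun x : f.ker => (⟨x.1.1, ?_⟩ : T)) ?_
    · have h1 : x.1 + x.1 = 0 := x.2
      have h2 : (x.1 : A) + (x.1 : A) = 0 := by
        have h3 := congrArg Subtype.val h1
        exact h3
      exact hT _ h2
    · intro x y hxy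
      apply Subtype.ext
      apply Subtype.ext
      have h1 := congrArg (fun z : T => (z : A)) hxy
      exact h1
  have hidx : Nat.card (G ⧸ f.range) ≤ T.card := by
    have : Nat.card (G ⧸ f.range) = f.range.index := rfl
    rw [this, index_range]
    exact hker
  refine le_trans ?_ hidx
  rw [← Nat.card_eq_finsetCard]
  refine Nat.card_le_card_of_injective
    (fun b : B => ((⟨P b.1, AddSubgroup.subset_closure ⟨b.1, b.2, rfl⟩⟩ : G) : G ⧸ f.range)) ?_
  intro b b' hbb
  apply Subtype.ext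
  have h1 := QuotientAddGroup.eq.1 hbb
  obtain ⟨R, hR⟩ := h1
  refine hB b.1 b.2 b'.1 b'.2 R.1 ?_
  have h2 := congrArg Subtype.val hR
  have h3 : R.1 + R.1 = -P b.1 + P b'.1 := h2
  rw [h3]
  abel

section

variable {F : Type} [Field F]

/-! ## The isomorphism with the twist by a square -/

theorem sc_twi (n : F) (e : Fin 3 → F) (L : Type) [Field L] [Algebra F L] {s : L} (hs : s ≠ 0)
    (h : algebraMap F L n = s ^ 2) :
    Sc (RingHom.id L) s ((crv e).baseChange L) ((crv (twi n e)).baseChange L) := by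
  refine ⟨hs, ?_, ?_, ?_, ?_, ?_⟩
  · change algebraMap F L 0 = algebraMap F L 0 * s
    rw [map_zero, zero_mul]
  · change algebraMap F L 0 = algebraMap F L 0 * s ^ 2
    rw [map_zero, zero_mul]
  · change algebraMap F L 0 = algebraMap F L 0 * s ^ 3
    rw [map_zero, zero_mul]
  · change algebraMap F L (n * e 0 * (n * e 1) + n * e 0 * (n * e 2) + n * e 1 * (n * e 2)) =
      algebraMap F L (e 0 * e 1 + e 0 * e 2 + e 1 * e 2) * s ^ 4
    simp only [map_add, map_mul, h]
    ring
  · change algebraMap F L (-(n * e 0 * (n * e 1) * (n * e 2))) =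
      algebraMap F L (-(e 0 * e 1 * e 2)) * s ^ 6
    simp only [map_neg, map_mul, h]
    ring

/-- the map on the points -/
noncomputable def twm (n : F) (e : Fin 3 → F) (L : Type) [Field L] [Algebra F L] {s : L} (hs : s ≠ 0)
    (h : algebraMap F L n = s ^ 2) : Pt (crv e) L →+ Pt (crv (twi n e)) L where
  toFun := tF (sc_twi n e L hs h)
  map_zero' := rfl
  map_add' := @tF_add _ _ _ _ _ _ _ _ (sc_twi n e L hs h) (Classical.decEq L) (Classical.decEq L)

theorem df_twi (n : F) (e : Fin 3 → F) (l : Fin 3) : df (twi n e) l = n * df e l := by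
  unfold df twi
  split_ifs <;> ring

/-- the classes do not change -/
theorem cx_twm {n : F} {e : Fin 3 → F} {L : Type} [Field L] [Algebra F L] {s : L} (hs : s ≠ 0)
    (h : algebraMap F L n = s ^ 2) {P : Pt (crv e) L} {a b : L} (hP : Cx e L P a b) :
    Cx (twi n e) L (twm n e L hs h P) a b := by
  have hs2 : s ^ 2 ≠ 0 := pow_ne_zero 2 hs
  obtain ⟨ha, hb, hP⟩ := hP
  refine ⟨ha, hb, ?_⟩
  have hroot : ∀ j, algebraMap F L (twi n e j) = algebraMap F L (e j) * s ^ 2 := by
    intro j
    change algebraMap F L (n * e j) = _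
    rw [map_mul, h, mul_comm]
  have hdf : ∀ l m : Fin 3, algebraMap F L (df (twi n e) l * df (twi n e) m) =
      algebraMap F L (df e l * df e m) * s ^ 4 := by
    intro l m
    rw [df_twi, df_twi]
    simp only [map_mul, h]
    ring
  have sq1 : ∀ (c x : L) (j : Fin 3), IsSquare (c * (x - algebraMap F L (e j))) →
      IsSquare (c * (x * s ^ 2 - algebraMap F L (twi n e j))) := by
    rintro c x j ⟨w, hw⟩
    refine ⟨w * s, ?_⟩
    rw [hroot]
    linear_combination s ^ 2 * hw
  rcases hP with ⟨rfl, ha2, hb2⟩ | ⟨x, y, hn, rfl, h0, h1⟩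
  · exact Or.inl ⟨map_zero _, ha2, hb2⟩
  · right
    refine ⟨x * s ^ 2, y * s ^ 3, (ns_iff (sc_twi n e L hs h) x y).2 hn, rfl, ?_, ?_⟩
    · rcases h0 with ⟨hx, hsq⟩ | ⟨hx, hsq⟩
      · left
        refine ⟨?_, sq1 a x 0 hsq⟩
        intro hxx
        rw [hroot] at hxx
        exact hx (mul_right_cancel₀ hs2 hxx)
      · right
        refine ⟨?_, ?_⟩
        · rw [hroot, hx]
        · obtain ⟨w, hw⟩ := hsq
          refine ⟨w * s ^ 2, ?_⟩
          rw [hdf]
          linear_combination s ^ 4 * hw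
    · rcases h1 with ⟨hx, hsq⟩ | ⟨hx, hsq⟩
      · left
        refine ⟨?_, sq1 b x 1 hsq⟩
        intro hxx
        rw [hroot] at hxx
        exact hx (mul_right_cancel₀ hs2 hxx)
      · right
        refine ⟨?_, ?_⟩
        · rw [hroot, hx]
        · obtain ⟨w, hw⟩ := hsq
          refine ⟨w * s ^ 2, ?_⟩
          rw [map_neg, hdf, ← neg_mul, ← map_neg]
          linear_combination s ^ 4 * hw

/-! ## The points of order two -/

theorem isR_base {e : Fin 3 → F} (he : Rt e) (L : Type) [Field L] [Algebra F L] :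
    IsR ((crv e).baseChange L) (algebraMap F L (e 0)) (algebraMap F L (e 1))
      (algebraMap F L (e 2)) := Pool.Agent.Q64.FT.isR_base he L

/-- the point `(x, 0)` -/
def pz {e : Fin 3 → F} {L : Type} [Field L] [Algebra F L] (x : L)
    (h : ((crv e).baseChange L).toAffine.Nonsingular x 0) : Pt (crv e) L := Affine.Point.some x 0 h

/-- a point with `y = 0` is killed by `2` -/
theorem two_tor {e : Fin 3 → F} (he : Rt e) (L : Type) [Field L] [Algebra F L] {x : L}
    (h : ((crv e).baseChange L).toAffine.Nonsingular x 0) :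
    (pz x h : Pt (crv e) L) + pz x h = 0 := by
  have h1 := @Affine.Point.add_self_of_Y_eq L _ ((crv e).baseChange L).toAffine (Classical.decEq L)
    x 0 h (by rw [(isR_base he L).negY, neg_zero])
  exact h1

theorem tor_of_two {A : Type*} [AddCommGroup A] {x : A} (h : x + x = 0) : IsOfFinAddOrder x := by
  rw [isOfFinAddOrder_iff_nsmul_eq_zero]
  exact ⟨2, by norm_num, by rw [two_nsmul]; exact h⟩

/-- at most four points are killed by `2` -/
theorem ker_card {e : Fin 3 → F} (he : Rt e) (L : Type) [Field L] [CharZero L] [Algebra F L]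
    (hns : ∀ l : Fin 3, ((crv e).baseChange L).toAffine.Nonsingular (algebraMap F L (e l)) 0) :
    ∃ T : Finset (Pt (crv e) L), T.card ≤ 4 ∧ ∀ P : Pt (crv e) L, P + P = 0 → P ∈ T := by
  classical
  refine ⟨insert 0 (Finset.univ.image
    (fun l : Fin 3 => (pz (algebraMap F L (e l)) (hns l) : Pt (crv e) L))), ?_, ?_⟩
  · refine (Finset.card_insert_le _ _).trans ?_
    refine Nat.succ_le_succ (Finset.card_image_le.trans ?_)
    rw [Finset.card_univ, Fintype.card_fin]
  · intro P hP
    rw [Finset.mem_insert, Finset.mem_image]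
    have hneg : -P = P := neg_eq_of_add_eq_zero_left hP
    rcases P with _ | ⟨x, y, hn⟩
    · exact Or.inl rfl
    · right
      have h1 : (Affine.Point.some x (((crv e).baseChange L).toAffine.negY x y)
          ((Affine.nonsingular_neg ..).2 hn) : ((crv e).baseChange L).toAffine.Point) =
          Affine.Point.some x y hn := hneg
      rw [Affine.Point.some.injEq] at h1
      have h2 := h1.2
      rw [(isR_base he L).negY] at h2
      have hy : y = 0 := by
        have h3 : (2 : L) * y = 0 := by linear_combination -h2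
        exact (mul_eq_zero.1 h3).resolve_left two_ne_zero
      subst hy
      have h4 := ((isR_base he L).eqn x 0).1 hn.1
      rw [zero_pow two_ne_zero] at h4
      have h5 : ∃ l : Fin 3, algebraMap F L (e l) = x := by
        rcases mul_eq_zero.1 h4.symm with h6 | h6
        · rcases mul_eq_zero.1 h6 with h7 | h7
          · exact ⟨0, (sub_eq_zero.1 h7).symm⟩
          · exact ⟨1, (sub_eq_zero.1 h7).symm⟩
        · exact ⟨2, (sub_eq_zero.1 h6).symm⟩
      obtain ⟨l, rfl⟩ := h5
      exact ⟨l, Finset.mem_univ _, rfl⟩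

end

/-! ## The job -/

theorem atp (hKUA : Pool.Agent.Q283.FG.S_KUA) (hKUB : Pool.Agent.Q283.FG.S_KUB)
    (hAXP : Pool.Agent.Q283.FG.S_AXP) (hBAS : Pool.Agent.Q7.LK.S_BAS)
    (hCPL : Pool.Agent.Q7.LK.S_CPL) : Pool.Agent.Q283.PQ.S_ATP := by
  intro F _ _ e he v
  have : Fact (Nat.Prime 2) := ⟨Nat.prime_two⟩
  obtain ⟨-, hmul, hpow, -, -, -, -⟩ := hBAS 2 F v
  obtain ⟨hex, hun, hsqc, hz, ht⟩ := hKUA F e he (v.adicCompletion F)
  have hsq : ∀ {m : F}, Lpw 2 v m → m ≠ 0 ∧ ∃ s : v.adicCompletion F, s ≠ 0 ∧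
      algebraMap F (v.adicCompletion F) m = s ^ 2 := by
    intro m hm
    obtain ⟨hm0, s, hs⟩ := (hCPL 2 F v m).1 hm
    refine ⟨hm0, s, ?_, hs⟩
    rintro rfl
    have h1 : algebraMap F (v.adicCompletion F) m = 0 ^ 2 := hs
    rw [zero_pow two_ne_zero] at h1
    exact (map_ne_zero _).2 hm0 h1
  have h2 : ∀ a b m m' : F, Lpw 2 v m → Lpw 2 v m' → ATo v e a b → ATo v e (a * m) (b * m') := by
    intro a b m m' hm hm' h
    obtain ⟨hm0, s, hs0, hs⟩ := hsq hm
    obtain ⟨hm0', s', hs0', hs'⟩ := hsq hm'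
    obtain ⟨ha, hb, P, hP, hc⟩ := h
    refine ⟨mul_ne_zero ha hm0, mul_ne_zero hb hm0', P, hP, ?_⟩
    rw [map_mul, map_mul, hs, hs']
    exact hsqc P _ _ s s' hs0 hs0' hc
  refine ⟨?_, h2, ?_, ?_, ?_, ?_⟩
  · rintro a b a' b' ⟨ha, hb, P, hP, hc⟩ ⟨ha', hb', P', hP', hc'⟩
    refine ⟨mul_ne_zero ha ha', mul_ne_zero hb hb', P + P', hP.add hP', ?_⟩
    rw [map_mul, map_mul]
    exact hKUB F e he (v.adicCompletion F) P P' _ _ _ _ hc hc'
  · rintro a b n hn ⟨ha, hb, P, hP, hc⟩
    obtain ⟨hn0, s, hs0, hs⟩ := hsq hn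
    exact ⟨ha, hb, twm n e _ hs0 hs P, (twm n e _ hs0 hs).isOfFinAddOrder hP, cx_twm hs0 hs hc⟩
  · have key : ∀ (a b c d : F), ATo v e c d → Lpw 2 v (a * c) → Lpw 2 v (b * d) → ATo v e a b := by
      intro a b c d h h3 h4
      have hc := h.1
      have hd := h.2.1
      have h5 : Lpw 2 v (a * c * (c⁻¹) ^ 2) := hmul _ _ h3 (hpow _ (inv_ne_zero hc))
      have h6 : Lpw 2 v (b * d * (d⁻¹) ^ 2) := hmul _ _ h4 (hpow _ (inv_ne_zero hd))
      have h7 := h2 _ _ _ _ h5 h6 h
      have e1 : c * (a * c * (c⁻¹) ^ 2) = a := by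
        field_simp
      have e2 : d * (b * d * (d⁻¹) ^ 2) = b := by
        field_simp
      rw [e1, e2] at h7
      exact h7
    have hT : ∀ (c d : F) (P : Pt (crv e) (v.adicCompletion F)), IsOfFinAddOrder P →
        Cx e (v.adicCompletion F) P (algebraMap F _ c) (algebraMap F _ d) → ATo v e c d := by
      intro c d P hP hc
      refine ⟨?_, ?_, P, hP, hc⟩
      · rintro rfl
        exact hc.1 (map_zero _)
      · rintro rfl
        exact hc.2.1 (map_zero _)
    rintro a b (⟨h3, h4⟩ | ⟨l, h3, h4⟩)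
    · refine key a b 1 1 (hT 1 1 0 IsOfFinAddOrder.zero (by rw [map_one]; exact hz)) ?_ ?_
      · rwa [mul_one]
      · rwa [mul_one]
    · obtain ⟨h, h5⟩ := ht l
      exact key a b _ _ (hT _ _ _ (tor_of_two (two_tor he _ h)) h5) h3 h4
  · rintro a b ⟨ha, hb, P, _, hc⟩
    exact ⟨ha, hb, (hAXP F e he (v.adicCompletion F) a b ha hb).2 ⟨P, hc⟩⟩
  · intro B hB hne
    classical
    have hc0 : CharZero (v.adicCompletion F) :=
      charZero_of_injective_algebraMap (algebraMap F (v.adicCompletion F)).injective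
    choose! P hP using fun b (hb : b ∈ B) => (hB b hb).2.2
    obtain ⟨T, hT4, hT⟩ := ker_card he (v.adicCompletion F) (fun l => (ht l).choose)
    refine (count_two T hT B P (fun b hb => (hP b hb).1) ?_).trans hT4
    intro b hb b' hb' R hR
    by_contra hbb
    apply hne b hb b' hb' hbb
    obtain ⟨r, r', hr⟩ := hex R
    have c1 := hKUB F e he (v.adicCompletion F) R R _ _ _ _ hr hr
    have c2 := hKUB F e he (v.adicCompletion F) (P b) (R + R) _ _ _ _ (hP b hb).2 c1
    have e1 : P b + (R + R) = P b' := by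
      rw [← hR]
      abel
    rw [e1] at c2
    obtain ⟨s1, s2⟩ := hun _ _ _ _ _ c2 (hP b' hb').2
    have hr0 : r ≠ 0 := hr.1
    have hr0' : r' ≠ 0 := hr.2.1
    have lp : ∀ (x x' : F) (t : v.adicCompletion F), x ≠ 0 → x' ≠ 0 → t ≠ 0 →
        IsSquare (algebraMap F (v.adicCompletion F) x * (t * t) / algebraMap F (v.adicCompletion F) x') →
        Lpw 2 v (x / x') := by
      rintro x x' t hx hx' ht0 ⟨w, hw⟩
      rw [hCPL]
      refine ⟨div_ne_zero hx hx', w / t, ?_⟩
      change algebraMap F (v.adicCompletion F) (x / x') = (w / t) ^ 2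
      have hx1 : algebraMap F (v.adicCompletion F) x' ≠ 0 := (map_ne_zero _).2 hx'
      rw [map_div₀, div_pow, eq_div_iff (pow_ne_zero 2 ht0)]
      rw [sq w, ← hw]
      field_simp
    exact ⟨lp _ _ r (hB b hb).1 (hB b' hb').1 hr0 s1,
      lp _ _ r' (hB b hb).2.1 (hB b' hb').2.1 hr0' s2⟩

end Pool.Agent.Q182.PQ
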